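import Pool.Agent.H281R3.HT.Defs
import Pool.Agent.Q71.TM.Pub0

/-!
# Polarized families of orthogonal type with maximal degenerations or K3 slopes: definitions
-/

set_option autoImplicit false

open CategoryTheory AlgebraicGeometry

universe u

namespace Pool.Agent.Q71.TS

open Pool.Agent.H914 Pool.Agent.H914.VarClass Pool.Agent.H914.VarClass.Obj
  Pool.Agent.H914.WeilCohomology Pool.Agent.H281R3.HT Pool.Agent.TH125.Gal Pool.Agent.Q71.TM.P

variable {k : Type u} [Field k] {𝒱 : VarClass k} {ops : CycleOps 𝒱}

/-- The divisor `D` on `X` satisfies the hard Lefschetz theorem and the standard conjectures of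
Lefschetz and of Hodge type. -/
structure IsPol (W : WeilCohomology.{u, 0} ops) (X : 𝒱.Obj) (D : X.Cycles) : Prop where
  div : X.IsCyc 1 D
  hard : HardLefschetz W X D
  lefschetz : LefschetzB W X D
  hodge : HodgeType W X D

variable {W : WeilCohomology.{u, 0} ops} {Γ : Type} [Group Γ]

/-- `υ` is an action of `Γ` on the cohomology of `A × B` which is compatible with the
projections. -/
def IsProd (A B : GVar W Γ) (υ : Acts W Γ (A.X.prod B.X)) : Prop :=
  Compat (fst A.X B.X) A.act υ ∧ Compat (snd A.X B.X) B.act υ

/-- The members of `G` are varieties with an action of `Γ` on the cohomology which has the formal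
properties of a Galois action, and `G` is closed under products. -/
structure IsClass (T : Tw W.K Γ) (G : Set (GVar W Γ)) : Prop where
  galois : ∀ X ∈ G, GaloisType T X
  prod : ∀ A ∈ G, ∀ B ∈ G, ∃ υ, IsProd A B υ ∧ ⟨A.X.prod B.X, υ⟩ ∈ G

/-- `Z` and the `X i` are members of a class `G` of varieties which is closed under products and on
whose cohomology `Γ` acts like a Galois group; the divisors `D i` on `X i` satisfy the hard
Lefschetz theorem and the standard conjectures of Lefschetz and of Hodge type; and the `X i` and `Z`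
are an `OrthFamily`. -/
structure PolFamily (T : Tw W.K Γ) (G : Set (GVar W Γ)) {ι : Type} (l : ι → Loc W.K Γ)
    (r : ι → ℕ) (X : ι → GVar W Γ) (D : ∀ i, (X i).X.Cycles) (Z : GVar W Γ) : Prop where
  galoisClass : IsClass T G
  mem : ∀ i, X i ∈ G
  mem_base : Z ∈ G
  polarization : ∀ i, IsPol W (X i).X (D i)
  family : OrthFamily T l r X Z

/-- The indices in the list are pairwise different, and `n + 1 < r i` for the pairs `(i, n)`. -/
def SmallExps {ι : Type} (r : ι → ℕ) (L : List (ι × ℕ)) : Prop :=
  (L.map Prod.fst).Nodup ∧ ∀ a ∈ L, a.2 + 1 < r a.1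

/-- The product `P × (P × ( ⋯ × P))` of `n + 1` copies of `P`, with the sum of the pull-backs of the
divisors. -/
noncomputable def polPower (ops : CycleOps 𝒱) (P : Polarized 𝒱) : ℕ → Polarized 𝒱
  | 0 => P
  | n + 1 => P.prod ops (polPower ops P n)

/-- The product `P i₁ ^ (n₁ + 1) × (P i₂ ^ (n₂ + 1) × (⋯ × Z))` for the list of the `(i, n)`, with
the sum of the pull-backs of the divisors. -/
noncomputable def polTower (ops : CycleOps 𝒱) {ι : Type} (P : ι → Polarized 𝒱)
    (Z : Polarized 𝒱) : List (ι × ℕ) → Polarized 𝒱
  | [] => Z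
  | a :: L => (polPower ops (P a.1) a.2).prod ops (polTower ops P Z L)

end Pool.Agent.Q71.TS
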