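import Pool.Agent.TH125.Gal.Lef

/-!
# The standard conjectures for products with powers: the general step
-/

open CategoryTheory AlgebraicGeometry Finset

set_option linter.unusedSectionVars false

universe u v w

namespace Pool.Agent.Q71.TS

open Pool.Agent.H914 Pool.Agent.H914.VarClass Pool.Agent.H914.VarClass.Obj
  Pool.Agent.H914.WeilCohomology Pool.Agent.H281R3.HT Pool.Agent.W552 Pool.Agent.H447
  Pool.Agent.TH125.Gal

variable {k : Type u} [Field k] {𝒱 : VarClass k} {ops : CycleOps 𝒱}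
  {W : WeilCohomology.{u, v} ops}

/-- What is needed for one step: `D` is a polarization of `A`, the transcendental cohomology of `A`
is in the middle degree, and the algebraic classes on the products of `m + 1 ≤ n + 1` copies of `A`
with `B` are combinations of the products of the standard algebraic classes with arbitrary classes
on `B`. -/
structure TStep (W : WeilCohomology.{u, v} ops) (A : 𝒱.Obj) (D : A.Cycles) (B : 𝒱.Obj) (n : ℕ) :
    Prop where
  pol : IsPolarization W A D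
  middle : transcendental W A ≤ W.gr A A.dim
  one_ne : (1 : W.H A) ≠ 0
  tgt : ∃ s : SB W A, ∀ m ≤ n,
    ∀ c : W.H ((nest ops m fun _ => (⟨A, D⟩ : Polarized 𝒱)).X.prod B),
      W552.AS W _ c → c ∈ Tgt (P := ⟨A, D⟩) s m B

theorem tgt_lspan' {A : 𝒱.Obj} {D : A.Cycles} {n : ℕ} {s : SB W A} (hDX : HomEqNum W A)
    (hmid : transcendental W A ≤ W.gr A A.dim) {Z : 𝒱.Obj}
    {c : W.H ((nest ops n fun _ => (⟨A, D⟩ : Polarized 𝒱)).X.prod Z)}
    (hc : c ∈ Tgt (P := ⟨A, D⟩) s n Z) :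
    c ∈ LSpan W (nest ops n fun _ => (⟨A, D⟩ : Polarized 𝒱)).X Z := by
  refine Submodule.span_mono ?_ hc
  rintro c ⟨S, i, m, w, hm, rfl⟩
  exact ⟨m, hm.alg hDX hmid, w, rfl⟩

namespace TStep

variable {A B : 𝒱.Obj} {D : A.Cycles} {n : ℕ} (h : TStep W A D B n)

include h

theorem homEqNum : HomEqNum W A := by
  obtain ⟨f, F, _⟩ := exists_Fp h.pol.div h.pol.hard h.pol.lefschetz h.pol.hodge
  exact F.hodge.2

/-- positivity on the powers -/
theorem fp_nest (hB1 : (1 : W.H B) ≠ 0) :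
    ∃ g, Fp W (nest ops n fun _ => (⟨A, D⟩ : Polarized 𝒱)).X
      (nest ops n fun _ => (⟨A, D⟩ : Polarized 𝒱)).D g := by
  obtain ⟨f, F, hls⟩ := exists_Fp h.pol.div h.pol.hard h.pol.lefschetz h.pol.hodge
  obtain ⟨s, hs⟩ := h.tgt
  have key : ∀ m ≤ n, ∀ c, W552.AS W (nest ops m fun _ => (⟨A, D⟩ : Polarized 𝒱)).X c → c ∈
      Submodule.span W.K {c | ∃ S i, Mq s (prj ops m fun _ => (⟨A, D⟩ : Polarized 𝒱)) S i c} := by
    intro m hm c hc
    exact mq_of_fst (P := ⟨A, D⟩) hB1 (hs m hm _ (hc.map (fst _ B)))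
  exact TH125.Gal.fp_nest (P := ⟨A, D⟩) F hls h.pol.hard h.pol.lefschetz h.homEqNum h.middle s h.one_ne
    n (fun hn => key 1 hn) (key n le_rfl)

/-- **The conjecture D for products with powers.** -/
theorem homEqNum_prod (hDB : HomEqNum W B) :
    HomEqNum W ((nest ops n fun _ => (⟨A, D⟩ : Polarized 𝒱)).X.prod B) := by
  by_cases hB1 : (1 : W.H B) = 0
  · intro j _ z _ _
    rw [← one_mul (W.cl _ z), ← map_one (W.map (snd _ B)), hB1, map_zero, zero_mul]
  · obtain ⟨g, F⟩ := h.fp_nest hB1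
    obtain ⟨s, hs⟩ := h.tgt
    exact TH125.Gal.homEqNum_prod F (fun c hc => tgt_lspan' h.homEqNum h.middle (hs n le_rfl c hc)) hDB

/-- **Positivity for products with powers.** -/
theorem fp_prod {E : B.Cycles} (hE : ∃ g, Fp W B E g) :
    ∃ g, Fp W ((nest ops n fun _ => (⟨A, D⟩ : Polarized 𝒱)).prod ops ⟨B, E⟩).X
      ((nest ops n fun _ => (⟨A, D⟩ : Polarized 𝒱)).prod ops ⟨B, E⟩).D g := by
  obtain ⟨g', F'⟩ := hE
  by_cases hB1 : (1 : W.H B) = 0
  · obtain ⟨f, F, hls⟩ := exists_Fp h.pol.div h.pol.hard h.pol.lefschetz h.pol.hodge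
    obtain ⟨g, l, hFg, hSg, -⟩ := exists_nest (ops := ops) n (fun _ => (⟨A, D⟩ : Polarized 𝒱))
      (fun _ => f) (fun _ => F.fr) (fun _ => F.sy) (fun _ => (exists_HB W A).some)
    refine ⟨_, hFg.prod F'.fr, hSg.prod hFg F'.fr F'.sy, fun x _ hx0 => absurd ?_ hx0⟩
    have h1 : (1 : W.H ((nest ops n fun _ => (⟨A, D⟩ : Polarized 𝒱)).X.prod B)) = 0 := by
      rw [← map_one (W.map (snd _ B)), hB1, map_zero]
    exact (one_mul x).symm.trans ((congrArg (· * x) h1).trans (zero_mul x))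
  · obtain ⟨g, F⟩ := h.fp_nest hB1
    obtain ⟨s, hs⟩ := h.tgt
    exact ⟨_, F.prod F' (fun c hc => tgt_lspan' h.homEqNum h.middle (hs n le_rfl c hc))⟩

/-- The algebraic cycles on a product split. -/
theorem clSplit (hB1 : (1 : W.H B) ≠ 0) :
    TH132.A.ClSplit W (nest ops n fun _ => (⟨A, D⟩ : Polarized 𝒱)).X B := by
  obtain ⟨g, F⟩ := h.fp_nest hB1
  obtain ⟨s, hs⟩ := h.tgt
  refine TH132.A.clSplit_of_tens fun z hz => TH132.A.mem_tens F.hodge.2 hz ?_
  exact lspan_le (tgt_lspan' h.homEqNum h.middle (hs n le_rfl z hz))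

theorem nest_one_ne : (1 : W.H (nest ops n fun _ => (⟨A, D⟩ : Polarized 𝒱)).X) ≠ 0 := by
  obtain ⟨x, hx⟩ := exists_tr h.one_ne
  have h2 : W.tr (nest ops n fun _ => (⟨A, D⟩ : Polarized 𝒱)).X
      (mono (prj ops n fun _ => (⟨A, D⟩ : Polarized 𝒱)) fun _ => x) ≠ 0 := by
    rw [tr_mono]
    exact pow_ne_zero _ hx
  intro h0
  apply h2
  rw [← one_mul (mono _ _), h0, zero_mul, map_zero]

theorem nest_hard (m : ℕ) :
    (nest ops m fun _ => (⟨A, D⟩ : Polarized 𝒱)).X.IsCyc 1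
      (nest ops m fun _ => (⟨A, D⟩ : Polarized 𝒱)).D ∧
    HardLefschetz W (nest ops m fun _ => (⟨A, D⟩ : Polarized 𝒱)).X
      (nest ops m fun _ => (⟨A, D⟩ : Polarized 𝒱)).D := by
  induction m with
  | zero => exact ⟨h.pol.div, h.pol.hard⟩
  | succ m ih =>
    exact ⟨SmVar.IsCyc.add (ops.pull_mem _ h.pol.div) (ops.pull_mem _ ih.1),
      hardLefschetz_prod h.pol.div ih.1 h.pol.hard ih.2⟩

/-- **The conjecture A for products with powers.** -/
theorem lefschetzA_iff {E : B.Cycles} (hE : B.IsCyc 1 E) (hHL : HardLefschetz W B E) :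
    LefschetzA W ((nest ops n fun _ => (⟨A, D⟩ : Polarized 𝒱)).prod ops ⟨B, E⟩).X
      ((nest ops n fun _ => (⟨A, D⟩ : Polarized 𝒱)).prod ops ⟨B, E⟩).D ↔
      LefschetzA W B E := by
  by_cases hB1 : (1 : W.H B) = 0
  · refine iff_of_true (lefschetzA_of_zero ?_ _) (lefschetzA_of_zero hB1 _)
    have h1 : (1 : W.H ((nest ops n fun _ => (⟨A, D⟩ : Polarized 𝒱)).X.prod B)) = 0 := by
      rw [← map_one (W.map (snd _ B)), hB1, map_zero]
    exact h1
  · obtain ⟨g, F⟩ := h.fp_nest hB1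
    obtain ⟨hP, hPL⟩ := h.nest_hard n
    refine TH132.A.lefschetzA_prod_iff (h.clSplit hB1) hP hE
      (SmVar.IsCyc.add (ops.pull_mem _ hP) (ops.pull_mem _ hE)) ?_ hPL hHL
      (lefschetzA_of_D hP hPL F.hodge.2) h.nest_one_ne
    show W.cl _ (ops.pull _ _ + ops.pull _ _) = _
    rw [map_add, W.cl_pull, W.cl_pull]

/-- **The conjecture A for products with powers and all divisors.** -/
theorem lefAll_iff :
    LefAll W ((nest ops n fun _ => (⟨A, D⟩ : Polarized 𝒱)).X.prod B) ↔ LefAll W B := by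
  by_cases hB1 : (1 : W.H B) = 0
  · refine iff_of_true (fun _ _ _ => lefschetzA_of_zero ?_ _)
      (fun _ _ _ => lefschetzA_of_zero hB1 _)
    have h1 : (1 : W.H ((nest ops n fun _ => (⟨A, D⟩ : Polarized 𝒱)).X.prod B)) = 0 := by
      rw [← map_one (W.map (snd _ B)), hB1, map_zero]
    exact h1
  have hP1 := h.nest_one_ne
  obtain ⟨g, F⟩ := h.fp_nest hB1
  have hS := h.clSplit hB1
  constructor
  · intro h1 E hE hHL
    obtain ⟨hP, hPL⟩ := h.nest_hard n
    exact (h.lefschetzA_iff hE hHL).1 (h1 _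
      (SmVar.IsCyc.add (ops.pull_mem _ hP) (ops.pull_mem _ hE))
      (hardLefschetz_prod hP hE hPL hHL))
  · intro h1 C hC hHL
    obtain ⟨D', E', hD', hE', hDE⟩ := TH132.A.div_split hS hC
    have h2 := TH132.A.hl_left hD' hE' hDE hHL hB1
    have h3 := TH132.A.hl_right hE' hD' hDE hHL hP1
    exact (TH132.A.lefschetzA_prod_iff hS hD' hE' hC hDE h2 h3
      (lefschetzA_of_D hD' h2 F.hodge.2) hP1).2 (h1 E' hE' h3)

end TStep

/-- The condition for all steps of the tower. -/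
def TSteps (W : WeilCohomology.{u, v} ops) {ι : Type} (P : ι → Polarized 𝒱) (Z : Polarized 𝒱) :
    List (ι × ℕ) → Prop
  | [] => True
  | a :: L => TStep W (P a.1).X (P a.1).D (tower' ops P Z L).X a.2 ∧ TSteps W P Z L

variable {ι : Type} {P : ι → Polarized 𝒱} {Z : Polarized 𝒱} {L : List (ι × ℕ)}

/-- **The conjecture D for towers.** -/
theorem homEqNum_tower (h : TSteps W P Z L) :
    HomEqNum W (tower' ops P Z L).X ↔ HomEqNum W Z.X := by
  induction L with
  | nil => exact Iff.rfl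
  | cons a L ih =>
    obtain ⟨hN, hL⟩ := h
    rw [← ih hL]
    constructor
    · intro h1
      obtain ⟨x, hx⟩ := exists_tr hN.one_ne
      have h2 : W.tr (nest ops a.2 fun _ => P a.1).X
          (mono (prj ops a.2 fun _ => P a.1) fun _ => x) ≠ 0 := by
        rw [tr_mono]
        exact pow_ne_zero _ hx
      exact homEqNum_factor h2 h1
    · intro h1
      exact hN.homEqNum_prod h1

/-- **The conjecture of Hodge type for towers.** -/
theorem fp_tower (h : TSteps W P Z L) (hE : IsPolarization W Z.X Z.D) :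
    ∃ g, Fp W (tower' ops P Z L).X (tower' ops P Z L).D g := by
  induction L with
  | nil =>
    obtain ⟨g, hg, _⟩ := exists_Fp hE.div hE.hard hE.lefschetz hE.hodge
    exact ⟨g, hg⟩
  | cons a L ih =>
    obtain ⟨hN, hL⟩ := h
    exact hN.fp_prod (ih hL)

theorem tower_hard (h : TSteps W P Z L) (hE : Z.X.IsCyc 1 Z.D)
    (hHL : HardLefschetz W Z.X Z.D) :
    (tower' ops P Z L).X.IsCyc 1 (tower' ops P Z L).D ∧
    HardLefschetz W (tower' ops P Z L).X (tower' ops P Z L).D := by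
  induction L with
  | nil => exact ⟨hE, hHL⟩
  | cons a L ih =>
    obtain ⟨hN, hL⟩ := h
    have h1 := ih hL
    obtain ⟨hP, hPL⟩ := hN.nest_hard a.2
    exact ⟨SmVar.IsCyc.add (ops.pull_mem _ hP) (ops.pull_mem _ h1.1),
      hardLefschetz_prod hP h1.1 hPL h1.2⟩

/-- **The conjecture A for towers.** -/
theorem lefschetzA_tower (h : TSteps W P Z L) (hE : Z.X.IsCyc 1 Z.D)
    (hHL : HardLefschetz W Z.X Z.D) :
    LefschetzA W (tower' ops P Z L).X (tower' ops P Z L).D ↔ LefschetzA W Z.X Z.D := by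
  induction L with
  | nil => exact Iff.rfl
  | cons a L ih =>
    obtain ⟨hN, hL⟩ := h
    have h1 := tower_hard hL hE hHL
    rw [← ih hL]
    exact hN.lefschetzA_iff h1.1 h1.2

/-- **The conjecture A for towers and all divisors.** -/
theorem lefAll_tower (h : TSteps W P Z L) :
    LefAll W (tower' ops P Z L).X ↔ LefAll W Z.X := by
  induction L with
  | nil => exact Iff.rfl
  | cons a L ih =>
    obtain ⟨hN, hL⟩ := h
    rw [← ih hL]
    exact hN.lefAll_iff

end Pool.Agent.Q71.TS
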