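import Pool.Agent.Q71.TM.Cnv
import Pool.Agent.Q71.TS.Stp

/-!
# The steps for families of orthogonal type
-/

open CategoryTheory AlgebraicGeometry Finset Function

set_option linter.unusedSectionVars false

universe u

namespace Pool.Agent.Q71.TS

open Pool.Agent.H914 Pool.Agent.H914.VarClass Pool.Agent.H914.VarClass.Obj
  Pool.Agent.H914.WeilCohomology Pool.Agent.H281R3.HT Pool.Agent.W552 Pool.Agent.TH125.Gal
  Pool.Agent.Y127 Pool.Agent.Y127.G Pool.Agent.Q71.TM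

variable {k : Type u} [Field k] {𝒱 : VarClass k} {ops : CycleOps 𝒱}
  {W : WeilCohomology.{u, 0} ops} {Γ : Type} [Group Γ] {χ : Γ →* W.Kˣ}
  {ι : Type} {X : ι → GVar W Γ} {Z : GVar W Γ} {l : ι → TM.Loc W.K Γ}
  {G : Set (GVar W Γ)}

section gen

variable {m : ℕ} {M : Fin m → FRep W.K Γ} {S : Set ι}

/-- one step of the generation of the cohomology -/
theorem genBy_stepD {i : ι} {n : ℕ} (hG : ∀ i, GaloisType χ (X i)) (hD : HomEqNum W (X i).X)
    (D : (X i).X.Cycles) {B : 𝒱.Obj} {τ : Γ →* (W.H B ≃ₐ[W.K] W.H B)}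
    (hgen : GenBy (fun j => trRep (hG j)) M χ τ S)
    {υ : Γ →* (W.H ((nest ops n fun _ => (⟨(X i).X, D⟩ : Polarized 𝒱)).X.prod B) ≃ₐ[W.K]
      W.H ((nest ops n fun _ => (⟨(X i).X, D⟩ : Polarized 𝒱)).X.prod B))}
    (hP : IsPowAct W (⟨(X i).X, D⟩ : Polarized 𝒱) n B (X i).act τ υ) :
    GenBy (fun j => trRep (hG j)) M χ υ (insert i S) := by
  unfold GenBy
  rw [eq_top_iff]
  set G := SemiInv χ υ ∪
    ({x | ∃ j ∈ insert i S, ∃ f : (trRep (hG j)).V →ₗ[W.K]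
          W.H ((nest ops n fun _ => (⟨(X i).X, D⟩ : Polarized 𝒱)).X.prod B),
        (∀ g y, f ((trRep (hG j)).ρ g y) = υ g (f y)) ∧ ∃ y, f y = x} ∪
     {x | ∃ a, ∃ f : (M a).V →ₗ[W.K]
          W.H ((nest ops n fun _ => (⟨(X i).X, D⟩ : Polarized 𝒱)).X.prod B),
        (∀ g y, f ((M a).ρ g y) = υ g (f y)) ∧ ∃ y, f y = x}) with hGdef
  -- the factor `X i`
  have k1 : ∀ (p : Fin (n + 1)) (a : W.H (X i).X),
      W.map (fst (nest ops n fun _ => (⟨(X i).X, D⟩ : Polarized 𝒱)).X B)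
        (W.map (prj ops n (fun _ => (⟨(X i).X, D⟩ : Polarized 𝒱)) p) a) ∈
        Algebra.adjoin W.K G := by
    intro p a
    have ha : a ∈ algSpan W (X i).X ⊔ transcendental W (X i).X := by
      rw [(isCompl hD).sup_eq_top]
      exact Submodule.mem_top
    obtain ⟨a1, ha1, a2, ha2, rfl⟩ := Submodule.mem_sup.1 ha
    rw [map_add, map_add]
    clear ha
    refine Subalgebra.add_mem _ ?_ ?_
    · induction ha1 using Submodule.span_induction with
      | mem a ha =>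
        obtain ⟨j, hj⟩ := Set.mem_iUnion.1 ha
        obtain ⟨Δ, hΔ, h3⟩ := (hG i).cl_fix j a hj
        refine Algebra.subset_adjoin (Or.inl ⟨j, Δ, hΔ, fun g hg => ?_⟩)
        rw [(hP g).1 p a, h3 g hg, map_smul, map_smul]
      | zero => rw [map_zero, map_zero]; exact Subalgebra.zero_mem _
      | add x y _ _ hx hy => rw [map_add, map_add]; exact Subalgebra.add_mem _ hx hy
      | smul q x _ hx => rw [map_smul, map_smul]; exact Subalgebra.smul_mem _ hx q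
    · refine Algebra.subset_adjoin (Or.inr (Or.inl ⟨i, Set.mem_insert _ _,
        (W.map (fst (nest ops n fun _ => (⟨(X i).X, D⟩ : Polarized 𝒱)).X B)).toLinearMap ∘ₗ
        (W.map (prj ops n (fun _ => (⟨(X i).X, D⟩ : Polarized 𝒱)) p)).toLinearMap ∘ₗ
          (transcendental W (X i).X).subtype, fun g y => ?_, ⟨a2, ha2⟩, rfl⟩))
      exact ((hP g).1 p y.1).symm
  -- the factor `B`
  have k2 : ∀ y : W.H B,
      W.map (snd (nest ops n fun _ => (⟨(X i).X, D⟩ : Polarized 𝒱)).X B) y ∈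
        Algebra.adjoin W.K G := by
    intro y
    have hy : y ∈ Algebra.adjoin W.K (SemiInv χ τ ∪
      ({x | ∃ j ∈ S, ∃ f : (trRep (hG j)).V →ₗ[W.K] W.H B,
          (∀ g y, f ((trRep (hG j)).ρ g y) = τ g (f y)) ∧ ∃ y, f y = x} ∪
       {x | ∃ a, ∃ f : (M a).V →ₗ[W.K] W.H B,
          (∀ g y, f ((M a).ρ g y) = τ g (f y)) ∧ ∃ y, f y = x})) := by
      rw [show Algebra.adjoin W.K _ = ⊤ from hgen]
      exact Algebra.mem_top
    induction hy using Algebra.adjoin_induction with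
    | mem y hy =>
      rcases hy with ⟨j, Δ, hΔ, h3⟩ | ⟨j, hj, f, hf, z, rfl⟩ | ⟨a, f, hf, z, rfl⟩
      · refine Algebra.subset_adjoin (Or.inl ⟨j, Δ, hΔ, fun g hg => ?_⟩)
        rw [(hP g).2 y, h3 g hg, map_smul]
      · refine Algebra.subset_adjoin (Or.inr (Or.inl ⟨j, Set.mem_insert_of_mem _ hj,
          (W.map (snd (nest ops n fun _ => (⟨(X i).X, D⟩ : Polarized 𝒱)).X B)).toLinearMap ∘ₗ f,
            fun g y => ?_, z, rfl⟩))
        rw [LinearMap.comp_apply, hf]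
        exact ((hP g).2 (f y)).symm
      · refine Algebra.subset_adjoin (Or.inr (Or.inr ⟨a,
          (W.map (snd (nest ops n fun _ => (⟨(X i).X, D⟩ : Polarized 𝒱)).X B)).toLinearMap ∘ₗ f,
            fun g y => ?_, z, rfl⟩))
        rw [LinearMap.comp_apply, hf]
        exact ((hP g).2 (f y)).symm
    | algebraMap r => rw [AlgHom.commutes]; exact Subalgebra.algebraMap_mem _ r
    | add x y _ _ hx hy => rw [map_add]; exact Subalgebra.add_mem _ hx hy
    | mul x y _ _ hx hy => rw [map_mul]; exact Subalgebra.mul_mem _ hx hy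
  intro c _
  obtain ⟨b, hb⟩ := exists_monoBasis (ops := ops) (⟨(X i).X, D⟩ : Polarized 𝒱)
    (Module.finBasis W.K (W.H (X i).X)) n
  rw [expand b c]
  refine Subalgebra.sum_mem _ fun r _ => Subalgebra.mul_mem _ ?_ (k2 _)
  rw [hb, mono, map_list_prod, List.map_ofFn]
  refine Subalgebra.list_prod_mem _ fun x hx => ?_
  obtain ⟨p, rfl⟩ := List.mem_ofFn.1 hx
  exact k1 p _

/-- the generation of the cohomology of the base -/
theorem genBy_base (hgal : ∀ i, GaloisType χ (X i))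
    {f : ∀ a, (M a).V →ₗ[W.K] W.H Z.X} (hf : ∀ a g x, f a ((M a).ρ g x) = Z.act g (f a x))
    (hgen : Algebra.adjoin W.K (⋃ a, Set.range (f a)) = ⊤) :
    GenBy (fun j => trRep (hgal j)) M χ Z.act S := by
  unfold GenBy
  rw [eq_top_iff, ← hgen]
  refine Algebra.adjoin_mono ?_
  rintro x hx
  obtain ⟨a, y, rfl⟩ := Set.mem_iUnion.1 hx
  exact Or.inr (Or.inr ⟨a, f a, hf a, y, rfl⟩)

/-- **The action on the towers, with generators.** -/
theorem exists_tower_gen (hG : GaloisClass χ G) (hX : ∀ i, X i ∈ G) (hZ : Z ∈ G)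
    (hgal : ∀ i, GaloisType χ (X i)) (hD : ∀ i, HomEqNum W (X i).X)
    (D : ∀ i, (X i).X.Cycles) (E : Z.X.Cycles)
    {f : ∀ a, (M a).V →ₗ[W.K] W.H Z.X} (hf : ∀ a g x, f a ((M a).ρ g x) = Z.act g (f a x))
    (hgen : Algebra.adjoin W.K (⋃ a, Set.range (f a)) = ⊤) (L : List (ι × ℕ)) :
    ∃ υ : Γ →* (W.H (tower' ops (fun i => ⟨(X i).X, D i⟩) ⟨Z.X, E⟩ L).X ≃ₐ[W.K]
        W.H (tower' ops (fun i => ⟨(X i).X, D i⟩) ⟨Z.X, E⟩ L).X),
      (⟨(tower' ops (fun i => ⟨(X i).X, D i⟩) ⟨Z.X, E⟩ L).X, υ⟩ : GVar W Γ) ∈ G ∧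
      GenBy (fun j => trRep (hgal j)) M χ υ {i | i ∈ L.map Prod.fst} := by
  induction L with
  | nil => exact ⟨Z.act, hZ, genBy_base hgal hf hgen⟩
  | cons a L ih =>
    obtain ⟨τ, hτ, hg⟩ := ih
    obtain ⟨υ, hυ, hP⟩ := exists_pow_act hG (hX a.1) hτ (D a.1) a.2
    refine ⟨υ, hυ, ?_⟩
    have h1 := genBy_stepD hgal (hD a.1) (D a.1) hg hP
    have h2 : {i | i ∈ List.map Prod.fst (a :: L)} = insert a.1 {i | i ∈ L.map Prod.fst} := by
      ext i
      simp only [List.map_cons, List.mem_cons, Set.mem_ofPred_eq, Set.mem_insert_iff]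
    rw [h2]
    exact h1

end gen

variable [IsAlgClosed W.K]

/-- **The Lie algebra kills the coordinates.** -/
theorem inv_stepD (hX : OrthFamily χ l X Z) {S : Set ι} (hS : S.Finite) {i : ι} (hi : i ∉ S)
    {n : ℕ} {D : (X i).X.Cycles} {B : 𝒱.Obj} {τ : Γ →* (W.H B ≃ₐ[W.K] W.H B)} {m : ℕ}
    {M : Fin m → FRep W.K Γ} (hM : ∀ a i, SmallR (l i) (transRank W (X i).X) (M a))
    (hgb : GenBy (fun j => trRep (hX.orth j).galois) M χ τ S)
    {υ : Γ →* (W.H ((nest ops n fun _ => (⟨(X i).X, D⟩ : Polarized 𝒱)).X.prod B) ≃ₐ[W.K]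
      W.H ((nest ops n fun _ => (⟨(X i).X, D⟩ : Polarized 𝒱)).X.prod B))}
    (hP : IsPowAct W (⟨(X i).X, D⟩ : Polarized 𝒱) n B (X i).act τ υ)
    {s : SB W (X i).X}
    {b : Module.Basis (Fin (n + 1) → Fin s.NC ⊕ Fin s.NT) W.K
      (W.H (nest ops n fun _ => (⟨(X i).X, D⟩ : Polarized 𝒱)).X)}
    (hb : ∀ r, b r = mono (prj ops n fun _ => (⟨(X i).X, D⟩ : Polarized 𝒱)) fun p => s.e (r p))
    {z : W.H ((nest ops n fun _ => (⟨(X i).X, D⟩ : Polarized 𝒱)).X.prod B)} {j : ℕ}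
    {Δ : Subgroup Γ} (hΔ : Δ.FiniteIndex)
    (hz : ∀ g ∈ Δ, υ g z = (χ g : W.K) ^ j • z) (c₀ : Fin (n + 1) → Option (Fin s.NC)) :
    TH125.Nod.Inv (fun _ : Fin s.NT => ()) (gram (P := (⟨(X i).X, D⟩ : Polarized 𝒱)) s)
      (fun _ => 1) (fun r : Free c₀ → Fin s.NT =>
        TH125.Gal.hS (P := (⟨(X i).X, D⟩ : Polarized 𝒱)) s b z c₀ fun l => s.uT (r l)) := by
  have hgal := fun i => (hX.orth i).galois
  have hG : IsGalois W χ (X i).X (X i).act := isGalois (hgal i)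
  have h1 := hS_eqv (P := (⟨(X i).X, D⟩ : Polarized 𝒱)) hb hG hP hΔ hz c₀
  have h2 := fun x y => kill_of_data (A := W.H B) (T := fun j => trRep (hgal j)) (M := M)
    (χ := χ) (τ := τ) hS hgb (l := l)
    (fun j => oRep (hX.orth j)) (fun i j hij => not_isoUpTo (hX.notIso i j hij)) hi
    (fun j hj h8 h8' => hX.eight i j hj.symm h8 h8')
    (fun a => hM a i) (lamb (P := (⟨(X i).X, D⟩ : Polarized 𝒱)) χ s c₀ j)
    (h := TH125.Gal.hS (P := (⟨(X i).X, D⟩ : Polarized 𝒱)) s b z c₀) h1 x y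
  exact inv_of_kill (s := (1 : W.K)) (B := rform W (X i).X (transcendental W (X i).X))
    (fun u w => h2 u w) s.uT

/-- **The algebraic classes on the products with powers.** -/
theorem tgt_of_alg (hX : OrthFamily χ l X Z) (hG : GaloisClass χ G) {S : Set ι} (hS : S.Finite)
    {i : ι} (hXi : X i ∈ G) (hi : i ∉ S) {B : 𝒱.Obj} {τ : Γ →* (W.H B ≃ₐ[W.K] W.H B)}
    (hτ : (⟨B, τ⟩ : GVar W Γ) ∈ G) {m : ℕ}
    {M : Fin m → FRep W.K Γ} (hM : ∀ a i, SmallR (l i) (transRank W (X i).X) (M a))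
    (hgb : GenBy (fun j => trRep (hX.orth j).galois) M χ τ S) (D : (X i).X.Cycles) {n : ℕ}
    (hn : n + 1 < transRank W (X i).X) :
    ∃ s : SB W (X i).X, ∀ q ≤ n,
      ∀ c : W.H ((nest ops q fun _ => (⟨(X i).X, D⟩ : Polarized 𝒱)).X.prod B),
      W552.AS W _ c → c ∈ Tgt (P := ⟨(X i).X, D⟩) s q B := by
  have hpos : 0 < Module.finrank W.K (transcendental W (X i).X) := by
    have h1 := (hX.orth i).rank
    change 0 < transRank W (X i).X
    omega
  obtain ⟨s, o, R, ho, hR⟩ := exists_adapted_SB (P := (⟨(X i).X, D⟩ : Polarized 𝒱))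
    (hX.orth i).homEqNum (hX.orth i).middle (hX.orth i).even hpos
  refine ⟨s, fun q hq c hc => ?_⟩
  obtain ⟨υ, hυ, hP⟩ := exists_pow_act (B := ⟨B, τ⟩) hG hXi hτ D q
  obtain ⟨b, hb⟩ := exists_monoBasis (ops := ops) (⟨(X i).X, D⟩ : Polarized 𝒱) s.e q
  have hgal := hG.galois _ hυ
  refine W552.AS.ind (p := fun c => c ∈ Tgt (P := ⟨(X i).X, D⟩) s q B) ?_ ?_ hc
  · intro j c hc
    obtain ⟨Δ, hΔ, h1⟩ := hgal.cl_fix j c hc
    obtain ⟨Δ', hΔ', hfix⟩ := exists_fix (isGalois (hX.orth i).galois) s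
    have h2 : ∀ g ∈ Δ ⊓ Δ', υ g c = (χ g : W.K) ^ j • c := fun g hg => h1 g hg.1
    refine tgt_step (P := (⟨(X i).X, D⟩ : Polarized 𝒱)) (ε := fun _ => 1) (Δ := Δ ⊓ Δ') (j := j) hb
      (hX.orth i).middle (isGalois (hX.orth i).galois) hP (hX.orth i).even hR ho
      (fun g hg a => hfix g hg.2 a) (alg_gr hc)
      (fun g hg => by rw [one_mul]; exact h2 g hg)
      (inv_stepD hX hS hi hM hgb hP hb (z := c) (j := j) (Δ := Δ ⊓ Δ') inferInstance h2) rfl
      (Or.inl ?_)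
    unfold transRank at hn
    rw [Module.finrank_eq_card_basis s.uT, Fintype.card_fin] at hn
    omega
  · intro x y hx hy
    exact Submodule.add_mem _ hx hy

/-- **All steps.** -/
theorem tsteps (hX : OrthFamily χ l X Z) (hG : GaloisClass χ G) (hXG : ∀ i, X i ∈ G)
    (hZ : Z ∈ G) {D : ∀ i, (X i).X.Cycles} (hpol : ∀ i, IsPolarization W (X i).X (D i))
    (E : Z.X.Cycles) (L : List (ι × ℕ)) (hL : (L.map Prod.fst).Nodup)
    (hn : ∀ a ∈ L, a.2 + 1 < transRank W (X a.1).X) :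
    TSteps W (fun i => (⟨(X i).X, D i⟩ : Polarized 𝒱)) ⟨Z.X, E⟩ L := by
  induction L with
  | nil => exact trivial
  | cons a L ih =>
    rw [List.map_cons, List.nodup_cons] at hL
    refine ⟨?_, ih hL.2 fun b hb => hn b (List.mem_cons_of_mem _ hb)⟩
    obtain ⟨m, M, f, hM, hf, hgen⟩ := hX.baseRep
    obtain ⟨υ, hυ, hgb⟩ := exists_tower_gen hG hXG hZ (fun i => (hX.orth i).galois)
      (fun i => (hX.orth i).homEqNum) D E hf hgen L
    refine ⟨hpol a.1, (hX.orth a.1).middle, ?_, ?_⟩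
    · intro h3
      have h1 := (hX.orth a.1).rank
      have h4 : Subsingleton (transcendental W (X a.1).X) := by
        refine ⟨fun x y => Subtype.ext ?_⟩
        have h5 : ∀ z : W.H (X a.1).X, z = 0 := fun z => by
          rw [← one_mul z]
          exact (congrArg (· * z) h3).trans (zero_mul z)
        rw [h5 x, h5 y]
      have h5 : transRank W (X a.1).X = 0 := Module.finrank_zero_of_subsingleton
      omega
    · exact tgt_of_alg hX hG (L.map Prod.fst).finite_toSet (hXG a.1) hL.1 hυ hM hgb (D a.1)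
        (hn a List.mem_cons_self)

end Pool.Agent.Q71.TS
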