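import Pool.Agent.Q71.TS.Gen
import Pool.Agent.Q71.TS.Defs

/-!
# The standard conjectures for towers over polarized families
-/

set_option autoImplicit false

open CategoryTheory AlgebraicGeometry Finset Function

universe u

namespace Pool.Agent.Q71.TS

open Pool.Agent.H914 Pool.Agent.H914.VarClass Pool.Agent.H914.VarClass.Obj
  Pool.Agent.H914.WeilCohomology Pool.Agent.H281R3.HT Pool.Agent.W552 Pool.Agent.TH125.Gal
  Pool.Agent.Q71.TM.P

variable {k : Type u} [Field k] {𝒱 : VarClass k} {ops : CycleOps 𝒱}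
  {W : WeilCohomology.{u, 0} ops} {Γ : Type} [Group Γ] {T : Tw W.K Γ} {G : Set (GVar W Γ)}
  {ι : Type} {l : ι → Loc W.K Γ} {r : ι → ℕ} {X : ι → GVar W Γ} {D : ∀ i, (X i).X.Cycles}
  {Z : GVar W Γ}

theorem IsPol.to {X : 𝒱.Obj} {D : X.Cycles} (h : IsPol W X D) : IsPolarization W X D :=
  ⟨h.div, h.hard, h.lefschetz, h.hodge⟩

theorem IsClass.to (h : IsClass T G) : GaloisClass T.χ G where
  galois := h.galois
  prod A hA B hB := by
    obtain ⟨υ, ⟨h1, h2⟩, h3⟩ := h.prod A hA B hB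
    exact ⟨_, h3, IsProdVar.mk υ h1 h2⟩

theorem polPower_eq (P : Polarized 𝒱) (n : ℕ) : polPower ops P n = nest ops n fun _ => P := by
  induction n with
  | zero => rfl
  | succ n ih =>
    rw [polPower, ih]
    rfl

theorem polTower_eq {ι : Type} (P : ι → Polarized 𝒱) (Z : Polarized 𝒱) (L : List (ι × ℕ)) :
    polTower ops P Z L = tower' ops P Z L := by
  induction L with
  | nil => rfl
  | cons a L ih => rw [polTower, tower', polPower_eq, ih]

theorem PolFamily.tsteps [IsAlgClosed W.K] (h : PolFamily T G l r X D Z) (E : Z.X.Cycles)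
    {L : List (ι × ℕ)} (hL : SmallExps r L) :
    TSteps W (fun i => (⟨(X i).X, D i⟩ : Polarized 𝒱)) ⟨Z.X, E⟩ L :=
  TS.tsteps (orthFamily h.family) h.galoisClass.to h.mem h.mem_base
    (fun i => (h.polarization i).to) E L hL.1
    fun a ha => by rw [rank_eq (h.family.orth a.1)]; exact hL.2 a ha

/-- **The conjectures of Hodge type and D.** -/
theorem PolFamily.hodge [IsAlgClosed W.K] (h : PolFamily T G l r X D Z) {E : Z.X.Cycles}
    (hE : IsPol W Z.X E) {L : List (ι × ℕ)} (hL : SmallExps r L) :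
    HodgeType W (polTower ops (fun i => ⟨(X i).X, D i⟩) ⟨Z.X, E⟩ L).X
      (polTower ops (fun i => ⟨(X i).X, D i⟩) ⟨Z.X, E⟩ L).D ∧
      HomEqNum W (polTower ops (fun i => ⟨(X i).X, D i⟩) ⟨Z.X, E⟩ L).X := by
  rw [polTower_eq]
  obtain ⟨g, F⟩ := fp_tower (h.tsteps E hL) hE.to
  exact F.hodge

/-- **The conjecture D.** -/
theorem PolFamily.homEqNum [IsAlgClosed W.K] (h : PolFamily T G l r X D Z) (E : Z.X.Cycles)
    {L : List (ι × ℕ)} (hL : SmallExps r L) :
    HomEqNum W (polTower ops (fun i => ⟨(X i).X, D i⟩) ⟨Z.X, E⟩ L).X ↔ HomEqNum W Z.X := by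
  rw [polTower_eq]
  exact homEqNum_tower (h.tsteps E hL)

/-- **The conjecture A.** -/
theorem PolFamily.lefschetzA [IsAlgClosed W.K] (h : PolFamily T G l r X D Z) {E : Z.X.Cycles}
    (hE : Z.X.IsCyc 1 E) (hHL : HardLefschetz W Z.X E) {L : List (ι × ℕ)} (hL : SmallExps r L) :
    LefschetzA W (polTower ops (fun i => ⟨(X i).X, D i⟩) ⟨Z.X, E⟩ L).X
      (polTower ops (fun i => ⟨(X i).X, D i⟩) ⟨Z.X, E⟩ L).D ↔ LefschetzA W Z.X E := by
  rw [polTower_eq]
  exact lefschetzA_tower (h.tsteps E hL) hE hHL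

/-- **The conjecture A for all divisors.** -/
theorem PolFamily.lefAll [IsAlgClosed W.K] (h : PolFamily T G l r X D Z) (E : Z.X.Cycles)
    {L : List (ι × ℕ)} (hL : SmallExps r L) :
    LefAll W (polTower ops (fun i => ⟨(X i).X, D i⟩) ⟨Z.X, E⟩ L).X ↔ LefAll W Z.X := by
  rw [polTower_eq]
  exact lefAll_tower (h.tsteps E hL)

end Pool.Agent.Q71.TS
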